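import Pool.Agent.X156.SR.Proj

/-!
# The least dimension of a simplicial refinement

For a statistical model `(C, Ω C)` whose polytope `C` has `m` extreme points let `δ(C)` be the least
dimension of `T` over all simplicial refinements `(T, Ω T, f, g)`.

* `m ≤ (δ(C) + 1) choose ⌊(δ(C) + 1) / 2⌋`: the supports of preimages of the extreme points of `C`
  form an antichain, because a preimage of a form that vanishes at one extreme point and not at
  another one does the same on the supports; then use Sperner's theorem.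
* Central sections of cross-polytopes show that `δ(C) ≤ 2 k - 1` for suitable polytopes `C` of
  dimension `d` with exactly `2 (k choose (d - 1))` extreme points, for all `2 ≤ d < k`. So for each
  `d ≥ 3` the conjecture `δ(C) = m - 1` fails in dimension `d`, and the least dimension can be as
  small as `2 log₂ m` (up to lower order terms), while it is always at least `log₂ m - 1`.
-/

set_option autoImplicit false

namespace Pool.Agent.Results.MP_ff4a33_gt.LeastDimension

open Pool.Agent.X156.SR

theorem family (k d : ℕ) (hd : 2 ≤ d) (hk : d < k) :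
    ∃ C : Set (Fin k → ℝ), IsPolytope C ∧ ¬ IsSimplex C ∧
      Module.finrank ℝ (vectorSpan ℝ C) = d ∧
      (C.extremePoints ℝ).ncard = 2 * k.choose (d - 1) ∧ leastDim C ≤ 2 * k - 1 := by
  obtain ⟨r, rfl⟩ := Nat.exists_eq_add_of_lt hk
  have hcard := mom_ncard (k := d + r + 1) (r := r + 1) (by omega)
  have hsymm : (d + r + 1).choose (r + 1 + 1) = (d + r + 1).choose (d - 1) := by
    rw [← Nat.choose_symm (by omega)]
    congr 1
    omega
  rw [hsymm] at hcard
  have hpos : 2 ≤ (d + r + 1).choose (d - 1) := by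
    calc 2 ≤ d := hd
      _ = d.choose (d - 1) := by
          obtain ⟨e, rfl⟩ := Nat.exists_eq_add_of_le' (show 1 ≤ d by omega)
          rw [Nat.add_sub_cancel, Nat.choose_succ_self_right]
      _ ≤ _ := Nat.choose_le_choose _ (by omega)
  have : Nonempty (Fin (d + r + 1)) := ⟨⟨0, by omega⟩⟩
  refine ⟨body (mom (d + r + 1) (r + 1)), body_isPolytope _, body_not_isSimplex (by omega), ?_,
    hcard, ?_⟩
  · rw [vectorSpan_body, finrank_mom (by omega)]
    omega
  · have h1 := leastDim_le (isRefinement_body (mom (d + r + 1) (r + 1)))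
    have h2 := finrank_stdSimplex (Fin (d + r + 1) × Bool)
    rw [Fintype.card_prod, Fintype.card_fin, Fintype.card_bool] at h2
    omega

theorem four_pow_le (n : ℕ) (hn : 1 ≤ n) : 4 ^ n ≤ 2 * n * (2 * n).choose n := by
  have := Nat.four_pow_le_two_mul_self_mul_centralBinom n hn
  rwa [Nat.centralBinom_eq_two_mul_choose] at this

/-- Let `δ(C)` be the least dimension of `T` over all simplicial refinements `(T, Ω T, f, g)` of
the statistical model `(C, Ω C)`, and `m` the number of extreme points of `C`.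
(a) For all `C` the minimum exists, `δ(C) + 1 ≤ m`, and
`m ≤ (δ(C) + 1) choose ⌊(δ(C) + 1) / 2⌋`; so `m ≤ 2 ^ (δ(C) + 1)`.
(b) For all `2 ≤ d < k` there is a non-simplicial model with `dim C = d`,
`m = 2 (k choose (d - 1))` and `δ(C) ≤ 2 k - 1`.
(c) For every `n ≥ 2` there is a non-simplicial model with `4 ^ n ≤ n m` and `δ(C) ≤ 4 n - 1`.
(d) The conjecture that `δ(C) = m - 1` for all non-simplicial models is false, in every dimension
`d ≥ 3`. -/
theorem result :
    (∀ (E : Type) [NormedAddCommGroup E] [NormedSpace ℝ E] [FiniteDimensional ℝ E] (C : Set E),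
      IsPolytope C →
      (∃ (κ : Type) (_ : Fintype κ) (T : Set (κ → ℝ)) (f : (κ → ℝ) →. E)
        (g : (T → ℝ) →. (C → ℝ)), IsRefinement C T f g ∧
          Module.finrank ℝ (vectorSpan ℝ T) = leastDim C) ∧
      leastDim C + 1 ≤ (C.extremePoints ℝ).ncard ∧
      (C.extremePoints ℝ).ncard ≤ (leastDim C + 1).choose ((leastDim C + 1) / 2) ∧
      (C.extremePoints ℝ).ncard ≤ 2 ^ (leastDim C + 1)) ∧
    (∀ k d : ℕ, 2 ≤ d → d < k → ∃ C : Set (Fin k → ℝ), IsPolytope C ∧ ¬ IsSimplex C ∧
      Module.finrank ℝ (vectorSpan ℝ C) = d ∧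
      (C.extremePoints ℝ).ncard = 2 * k.choose (d - 1) ∧ leastDim C ≤ 2 * k - 1) ∧
    (∀ n : ℕ, 2 ≤ n → ∃ (k : ℕ) (C : Set (Fin k → ℝ)), IsPolytope C ∧ ¬ IsSimplex C ∧
      4 ^ n ≤ n * (C.extremePoints ℝ).ncard ∧ leastDim C ≤ 4 * n - 1) ∧
    ∀ d : ℕ, 3 ≤ d → ¬ ∀ (k : ℕ) (C : Set (Fin k → ℝ)), IsPolytope C → ¬ IsSimplex C →
      Module.finrank ℝ (vectorSpan ℝ C) = d → leastDim C = (C.extremePoints ℝ).ncard - 1 := by
  refine ⟨fun E _ _ _ C hC => ?_, family, fun n hn => ?_, fun d hd hall => ?_⟩
  · obtain ⟨h1, h2⟩ := leastDim_spec hC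
    have h3 : (C.extremePoints ℝ).ncard ≤ (leastDim C + 1).choose ((leastDim C + 1) / 2) := by
      obtain ⟨κ, _, T, f, g, h, hT⟩ := h1
      rw [← hT]
      exact refinement_card_le hC h
    exact ⟨h1, h2, h3, h3.trans (Nat.choose_le_two_pow _ _)⟩
  · obtain ⟨C, h1, h2, _, h4, h5⟩ := family (2 * n) (n + 1) (by omega) (by omega)
    refine ⟨2 * n, C, h1, h2, ?_, by omega⟩
    rw [h4, Nat.add_sub_cancel]
    have := four_pow_le n (by omega)
    linarith
  · obtain ⟨C, h1, h2, h3, h4, h5⟩ := family (d + 2) d (by omega) (by omega)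
    have h6 := hall (d + 2) C h1 h2 h3
    have h7 : (d + 2).choose (d - 1) = (d + 2).choose 3 := by
      rw [← Nat.choose_symm (by omega)]
      congr 1
      omega
    have h8 : d + 2 < (d + 2).choose 3 := by
      have h9 := Nat.add_one_mul_choose_eq (d + 1) 2
      have h10 := Nat.add_one_mul_choose_eq d 1
      rw [Nat.choose_one_right] at h10
      change (d + 2) * (d + 1).choose 2 = (d + 2).choose 3 * 3 at h9
      change (d + 1) * d = (d + 1).choose 2 * 2 at h10
      have h11 : 6 ≤ (d + 1).choose 2 := by nlinarith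
      have h12 := Nat.mul_le_mul_left (d + 2) h11
      omega
    omega

end Pool.Agent.Results.MP_ff4a33_gt.LeastDimension
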